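import Pool.Agent.helper66.GCA_A9

set_option autoImplicit false

/-!
# Modules A10b, A10c of MP_5e4b6b_an: roots and non-roots over a path connected base
-/

namespace Pool.Agent.helper65.GCA

open Set Topology unitInterval Polynomial PolyTools

/-- mod:A10b (from A9). -/
theorem finPC_roots {E : Type*} [TopologicalSpace E] {C : Set E} (hC : IsPathConnected C)
    (Q : E → ℂ[X]) (e : ℕ) (hQ : ∀ k, ContinuousOn (fun x => (Q x).coeff k) C)
    (hdeg : ∀ x ∈ C, (Q x).natDegree = e) (hsep : ∀ x ∈ C, (Q x).Separable) :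
    FinPC {z : E × ℂ | z.1 ∈ C ∧ (Q z.1).IsRoot z.2} := by
  obtain ⟨x₀, hx₀, hx₀C⟩ := hC
  set Z : Set (E × ℂ) := {z : E × ℂ | z.1 ∈ C ∧ (Q z.1).IsRoot z.2} with hZ
  refine ⟨(fun y : ℂ => pathComponentIn Z (x₀, y)) '' {y | (Q x₀).IsRoot y},
    (finite_roots (hsep x₀ hx₀).ne_zero).image _, ?_, ?_⟩
  · rintro _ ⟨y, hy, rfl⟩
    exact isPathConnected_pathComponentIn (show (x₀, y) ∈ Z from ⟨hx₀, hy⟩)
  · apply Subset.antisymm
    · rintro z ⟨_, ⟨y, hy, rfl⟩, hz⟩
      exact pathComponentIn_subset hz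
    · rintro ⟨x, y⟩ ⟨hx, hy⟩
      obtain ⟨γ, hγ⟩ := (hx₀C hx).symm
      obtain ⟨r, hr, hr0, hrt⟩ := exists_root_path (fun t => Q (γ t)) e (fun t => hdeg _ (hγ t))
        (fun k => (hQ k).comp_continuous γ.continuous hγ) (fun t => hsep _ (hγ t)) y
        (by
          have h1 : γ 0 = x := γ.source
          simp only [h1]
          exact hy)
      have hroot : (Q x₀).IsRoot (r 1) := by
        have h1 := hrt 1
        have h2 : γ 1 = x₀ := γ.target
        simp only [h2] at h1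
        exact h1
      refine ⟨_, ⟨r 1, hroot, rfl⟩, ?_⟩
      change JoinedIn Z (x₀, r 1) (x, y)
      refine JoinedIn.symm ?_
      refine ⟨⟨⟨fun t => (γ t, r t), γ.continuous.prodMk hr⟩, ?_, ?_⟩, ?_⟩
      · simp [hr0]
      · simp
      · intro t
        exact ⟨hγ t, hrt t⟩

/-- mod:A10c. -/
theorem finPC_nonroots {E : Type*} [TopologicalSpace E] {C : Set E} (hC : IsPathConnected C)
    (G : E → ℂ[X]) (e : ℕ) (hG : ∀ k, ContinuousOn (fun x => (G x).coeff k) C)
    (hdeg : ∀ x ∈ C, (G x).natDegree = e) (hne : ∀ x ∈ C, G x ≠ 0) :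
    FinPC {z : E × ℂ | z.1 ∈ C ∧ ¬ (G z.1).IsRoot z.2} := by
  set Z : Set (E × ℂ) := {z : E × ℂ | z.1 ∈ C ∧ ¬ (G z.1).IsRoot z.2} with hZ
  refine ⟨{Z}, Set.finite_singleton _, ?_, by simp⟩
  rintro _ rfl
  -- inside a fibre
  have hfib : ∀ x ∈ C, ∀ y y' : ℂ, ¬ (G x).IsRoot y → ¬ (G x).IsRoot y' →
      JoinedIn Z (x, y) (x, y') := by
    intro x hx y y' hy hy'
    have h1 : IsPathConnected {y | (G x).IsRoot y}ᶜ := by
      refine (finite_roots (hne x hx)).countable.isPathConnected_compl_of_one_lt_rank ?_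
      rw [Complex.rank_real_complex]
      exact Cardinal.one_lt_two
    obtain ⟨γ, hγ⟩ := h1.joinedIn y hy y' hy'
    refine ⟨⟨⟨fun t => (x, γ t), continuous_const.prodMk γ.continuous⟩, ?_, ?_⟩, ?_⟩
    · simp
    · simp
    · intro t
      exact ⟨hx, hγ t⟩
  rw [isPathConnected_iff]
  constructor
  · obtain ⟨x, hx⟩ := hC.nonempty
    have h1 : {y | (G x).IsRoot y}ᶜ.Nonempty := by
      rw [nonempty_compl]
      intro h
      have h2 := finite_roots (hne x hx)
      rw [h] at h2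
      exact Set.infinite_univ h2
    obtain ⟨y, hy⟩ := h1
    exact ⟨(x, y), hx, hy⟩
  · rintro ⟨x, y⟩ ⟨hx, hy⟩ ⟨x', y'⟩ ⟨hx', hy'⟩
    obtain ⟨γ, hγ⟩ := hC.joinedIn x hx x' hx'
    obtain ⟨M, hM⟩ := exists_root_bound (fun t => G (γ t)) e (fun t => hdeg _ (hγ t))
      (fun k => (hG k).comp_continuous γ.continuous hγ) (fun t => hne _ (hγ t))
    let Y : ℂ := ((|M| + 1 : ℝ) : ℂ)
    have hY : ∀ t, ¬ (G (γ t)).IsRoot Y := by
      intro t ht
      have h1 := hM t Y ht
      have h2 : ‖Y‖ = |M| + 1 := by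
        simp only [Y, Complex.norm_real, Real.norm_eq_abs]
        exact abs_of_pos (by positivity)
      rw [h2] at h1
      have h3 := le_abs_self M
      linarith
    have h0 : ¬ (G x).IsRoot Y := by
      have := hY 0
      rwa [γ.source] at this
    have h1 : ¬ (G x').IsRoot Y := by
      have := hY 1
      rwa [γ.target] at this
    refine (hfib x hx y Y hy h0).trans (JoinedIn.trans ?_ (hfib x' hx' Y y' h1 hy'))
    refine ⟨⟨⟨fun t => (γ t, Y), γ.continuous.prodMk continuous_const⟩, ?_, ?_⟩, ?_⟩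
    · simp
    · simp
    · intro t
      exact ⟨hγ t, hY t⟩

end Pool.Agent.helper65.GCA
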