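import Pool.Agent.helper65.GCA.Defs

set_option autoImplicit false

/-!
# Module T2 of MP_5e4b6b_an: covering lemma
-/

namespace Pool.Agent.helper65.GCA

open Set Topology unitInterval Polynomial

/-- A continuous map from a compact Hausdorff space which is locally injective over the open set
`S` and has fibres of constant finite cardinality over `S` is open at the points over `S`. -/
private lemma image_mem_nhds_of_card {E X : Type*} [TopologicalSpace E] [T2Space E]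
    [CompactSpace E]
    [TopologicalSpace X] [T2Space X] {f : E → X} (hf : Continuous f) {S : Set X} (hS : IsOpen S)
    (d : ℕ) (hfin : ∀ x ∈ S, (f ⁻¹' {x}).Finite) (hcard : ∀ x ∈ S, (f ⁻¹' {x}).ncard = d)
    (hinj : ∀ e ∈ f ⁻¹' S, ∃ U ∈ 𝓝 e, InjOn f U) {e₀ : E} (he₀ : f e₀ ∈ S) {N : Set E}
    (hN : N ∈ 𝓝 e₀) : f '' N ∈ 𝓝 (f e₀) := by
  classical
  have hsub : ∀ e ∈ f ⁻¹' {f e₀}, ∃ V ∈ 𝓝 e, InjOn f V := by
    intro e he
    apply hinj
    have : f e = f e₀ := he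
    change f e ∈ S
    rw [this]; exact he₀
  choose! V hV hVinj using hsub
  obtain ⟨U, hU, hdisj⟩ := (hfin _ he₀).t2_separation
  let U' : E → Set E := fun e => U e ∩ interior (V e) ∩ (if e = e₀ then interior N else univ)
  have hU'open : ∀ e, IsOpen (U' e) := by
    intro e
    refine ((hU e).2.inter isOpen_interior).inter ?_
    split_ifs
    · exact isOpen_interior
    · exact isOpen_univ
  have hU'mem : ∀ e ∈ f ⁻¹' {f e₀}, e ∈ U' e := by
    intro e he
    refine ⟨⟨(hU e).1, mem_interior_iff_mem_nhds.2 (hV e he)⟩, ?_⟩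
    split_ifs with h
    · subst h
      exact mem_interior_iff_mem_nhds.2 hN
    · trivial
  have hnhds : (⋃ e ∈ f ⁻¹' {f e₀}, U' e) ∈ 𝓝ˢ (f ⁻¹' {f e₀}) := by
    refine (isOpen_biUnion fun e _ => hU'open e).mem_nhdsSet.2 fun e he => ?_
    exact mem_biUnion he (hU'mem e he)
  obtain ⟨W, hWx, hWV⟩ := isClosedMap_iff_comap_nhds_le.mp hf.isClosedMap hnhds
  have hWS : W ∩ S ∈ 𝓝 (f e₀) := Filter.inter_mem hWx (hS.mem_nhds he₀)
  refine Filter.mem_of_superset hWS ?_
  rintro x' ⟨hx'W, hx'S⟩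
  let T : Set E := {e | e ∈ f ⁻¹' {f e₀} ∧ ∃ e' ∈ f ⁻¹' {x'}, e' ∈ U' e}
  have hex : ∀ e' ∈ f ⁻¹' {x'}, ∃ e ∈ f ⁻¹' {f e₀}, e' ∈ U' e := by
    intro e' he'
    have h1 : e' ∈ f ⁻¹' W := by
      have : f e' = x' := he'
      change f e' ∈ W
      rw [this]; exact hx'W
    have h2 := hWV h1
    simpa using h2
  choose! g hg1 hg2 using hex
  have hTsub : T ⊆ f ⁻¹' {f e₀} := fun e he => he.1
  have hgT : ∀ e' ∈ f ⁻¹' {x'}, g e' ∈ T := fun e' he' => ⟨hg1 e' he', e', he', hg2 e' he'⟩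
  have hginj : InjOn g (f ⁻¹' {x'}) := by
    intro a ha b hb hab
    have h1 := hg2 a ha
    have h2 := hg2 b hb
    rw [← hab] at h2
    refine hVinj (g a) (hg1 a ha) (interior_subset h1.1.2) (interior_subset h2.1.2) ?_
    have h3 : f a = x' := ha
    have h4 : f b = x' := hb
    rw [h3, h4]
  have hle : (f ⁻¹' {x'}).ncard ≤ T.ncard :=
    Set.ncard_le_ncard_of_injOn g hgT hginj ((hfin _ he₀).subset hTsub)
  have hT : T = f ⁻¹' {f e₀} := by
    refine Set.eq_of_subset_of_ncard_le hTsub ?_ (hfin _ he₀)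
    rw [hcard _ he₀, ← hcard _ hx'S]
    exact hle
  have he₀T : e₀ ∈ T := by rw [hT]; rfl
  obtain ⟨_, e', he', he'U⟩ := he₀T
  refine ⟨e', ?_, he'⟩
  have h5 := he'U.2
  rw [if_pos rfl] at h5
  exact interior_subset h5

/-- mod:T2. -/
theorem isCoveringMapOn_of_card {E X : Type*} [TopologicalSpace E] [T2Space E] [CompactSpace E]
    [TopologicalSpace X] [T2Space X] {f : E → X} (hf : Continuous f) {S : Set X} (hS : IsOpen S)
    (d : ℕ) (hfin : ∀ x ∈ S, (f ⁻¹' {x}).Finite) (hcard : ∀ x ∈ S, (f ⁻¹' {x}).ncard = d)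
    (hinj : ∀ e ∈ f ⁻¹' S, ∃ U ∈ 𝓝 e, InjOn f U) : IsCoveringMapOn f S := by
  apply IsCoveringMapOn.of_isLocalHomeomorphOn hf
  intro e he
  obtain ⟨U, hU, hUinj⟩ := hinj e he
  let O : Set E := interior U ∩ f ⁻¹' S
  have hO : IsOpen O := isOpen_interior.inter (hS.preimage hf)
  have heO : e ∈ O := ⟨mem_interior_iff_mem_nhds.2 hU, he⟩
  have hOinj : InjOn f O := hUinj.mono (inter_subset_left.trans interior_subset)
  have : Nonempty E := ⟨e⟩
  let φ : PartialEquiv E X := (hOinj.bijOn_image).toPartialEquiv f O (f '' O)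
  have hφo : IsOpenMap (φ.source.domRestrict φ) := by
    rw [isOpenMap_iff_nhds_le]
    rintro ⟨y, hy⟩
    have hy' : y ∈ O := hy
    intro N hN
    rw [Filter.mem_map, mem_nhds_subtype] at hN
    obtain ⟨N', hN', hNN⟩ := hN
    have h1 : N' ∩ O ∈ 𝓝 y := Filter.inter_mem hN' (hO.mem_nhds hy')
    have h2 := image_mem_nhds_of_card hf hS d hfin hcard hinj hy'.2 h1
    refine Filter.mem_of_superset h2 ?_
    rintro _ ⟨z, ⟨hz1, hz2⟩, rfl⟩
    exact hNN (show (⟨z, hz2⟩ : φ.source) ∈ Subtype.val ⁻¹' N' from hz1)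
  exact ⟨OpenPartialHomeomorph.ofContinuousOpenRestrict φ hf.continuousOn hφo hO, heO, rfl⟩

end Pool.Agent.helper65.GCA
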