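import Pool.Agent.helper66.GCA_PolyTools

set_option autoImplicit false

/-!
# Module T5 of MP_5e4b6b_an: properties of good parameters
-/

namespace Pool.Agent.helper65.GCA

open Set Topology unitInterval Polynomial

variable {d n N : ℕ} {D : Data d n N}

namespace T5

lemma coeff_sum (c : Fin (d + 1) → ℂ) (j : ℕ) :
    (∑ k : Fin (d + 1), C (c k) * X ^ (k : ℕ)).coeff j =
      if h : j < d + 1 then c ⟨j, h⟩ else 0 := by
  simp only [finsetSum_coeff, coeff_C_mul, coeff_X_pow, mul_ite, mul_one, mul_zero]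
  split_ifs with h
  · rw [Finset.sum_eq_single (⟨j, h⟩ : Fin (d + 1))]
    · simp
    · intro b _ hb
      rw [if_neg]
      intro hjb
      exact hb (Fin.ext hjb.symm)
    · simp
  · refine Finset.sum_eq_zero fun k _ => ?_
    rw [if_neg]
    intro hjk
    exact h (hjk ▸ k.2)

lemma natDegree_sum_le (c : Fin (d + 1) → ℂ) :
    (∑ k : Fin (d + 1), C (c k) * X ^ (k : ℕ)).natDegree ≤ d := by
  rw [natDegree_le_iff_coeff_eq_zero]
  intro j hj
  rw [coeff_sum, dif_neg (by omega)]

lemma coeff_polyA (x : Idx d n N → ℂ) (j : ℕ) :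
    (polyA x).coeff j = if h : j < d + 1 then x (.A ⟨j, h⟩) else 0 := coeff_sum _ j

lemma coeff_polyB (x : Idx d n N → ℂ) (j : ℕ) :
    (polyB x).coeff j = if h : j < d + 1 then x (.B ⟨j, h⟩) else 0 := coeff_sum _ j

lemma coeff_polyA_d (x : Idx d n N → ℂ) : (polyA x).coeff d = x (.A (Fin.last d)) := by
  rw [coeff_polyA, dif_pos (Nat.lt_succ_self d)]; rfl

lemma coeff_polyB_d (x : Idx d n N → ℂ) : (polyB x).coeff d = x (.B (Fin.last d)) := by
  rw [coeff_polyB, dif_pos (Nat.lt_succ_self d)]; rfl

lemma natDegree_polyA_le (x : Idx d n N → ℂ) : (polyA x).natDegree ≤ d := natDegree_sum_le _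

lemma natDegree_polyB_le (x : Idx d n N → ℂ) : (polyB x).natDegree ≤ d := natDegree_sum_le _

/-- Roots of `polyT x i` are the `q l` with label `i`. -/
lemma isRoot_polyT_iff {x : Idx d n N → ℂ} (h : Good D x) (i : Option (Fin n)) (z : ℂ) :
    (polyT x i).eval z = 0 ↔ ∃ l, D.L l = i ∧ z = x (.q l) := by
  rw [h.fact i, eval_mul, eval_C, mul_eq_zero, eval_prod, Finset.prod_eq_zero_iff]
  constructor
  · rintro (h1 | ⟨l, hl, h1⟩)
    · exact absurd h1 (h.a_ne i)
    · rw [eval_pow, eval_sub, eval_X, eval_C] at h1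
      exact ⟨l, (Finset.mem_filter.1 hl).2, sub_eq_zero.1 (eq_zero_of_pow_eq_zero h1)⟩
  · rintro ⟨l, hl, rfl⟩
    right
    refine ⟨l, Finset.mem_filter.2 ⟨Finset.mem_univ _, hl⟩, ?_⟩
    rw [eval_pow, eval_sub, eval_X, eval_C, sub_self, zero_pow (Nat.one_le_iff_ne_zero.1 (h.e_pos l))]

/-- The Wronskian does not vanish outside of the `q l`. -/
lemma wron_ne {x : Idx d n N → ℂ} (h : Good D x) {z : ℂ} (hz : ∀ l, z ≠ x (.q l)) :
    (derivative (polyA x) * polyB x - polyA x * derivative (polyB x)).eval z ≠ 0 := by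
  rw [h.wron, eval_mul, eval_C, eval_prod]
  refine mul_ne_zero h.w_ne (Finset.prod_ne_zero_iff.2 fun l _ => ?_)
  rw [eval_pow, eval_sub, eval_X, eval_C]
  exact pow_ne_zero _ (sub_ne_zero.2 (hz l))

lemma no_common_root {x : Idx d n N → ℂ} (h : Good D x) (z : ℂ) :
    (polyA x).eval z ≠ 0 ∨ (polyB x).eval z ≠ 0 := by
  by_contra hcon
  push Not at hcon
  obtain ⟨hA, hB⟩ := hcon
  obtain ⟨l, hl, rfl⟩ := (isRoot_polyT_iff h none z).1 hB
  -- `(X - q)^e` divides `B`
  set q : ℂ := x (.q l) with hq
  obtain ⟨e, he⟩ : ∃ e, (D.e l : ℕ) = e + 1 := ⟨(D.e l : ℕ) - 1, by have := h.e_pos l; omega⟩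
  have hBdvd : (X - C q) ^ (e + 1) ∣ polyB x := by
    have h1 := h.fact none
    change polyB x = _ at h1
    rw [h1]
    refine Dvd.dvd.mul_left ?_ _
    have h2 := Finset.dvd_prod_of_mem (fun l => (X - C (x (.q l))) ^ (D.e l : ℕ))
      (Finset.mem_filter.2 ⟨Finset.mem_univ l, hl⟩ :
        l ∈ Finset.univ.filter (fun l => D.L l = none))
    simp only [he] at h2
    exact h2
  have hAdvd : (X - C q) ∣ polyA x := dvd_iff_isRoot.2 hA
  have hB'dvd : (X - C q) ^ e ∣ derivative (polyB x) := by
    obtain ⟨R, hR⟩ := hBdvd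
    rw [hR, derivative_mul, derivative_pow, Nat.add_sub_cancel]
    refine dvd_add ?_ ?_
    · refine Dvd.dvd.mul_right ?_ _
      refine Dvd.dvd.mul_right ?_ _
      exact Dvd.intro_left _ rfl
    · exact (pow_dvd_pow _ (Nat.le_succ e)).mul_right _
  have hW : (X - C q) ^ (e + 1) ∣
      derivative (polyA x) * polyB x - polyA x * derivative (polyB x) := by
    refine dvd_sub (hBdvd.mul_left _) ?_
    rw [pow_succ, mul_comm ((X - C q) ^ e)]
    exact mul_dvd_mul hAdvd hB'dvd
  rw [h.wron, ← Finset.mul_prod_erase _ _ (Finset.mem_univ l), he, Nat.add_sub_cancel,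
    mul_left_comm, pow_succ] at hW
  have hX : (X - C q : ℂ[X]) ^ e ≠ 0 := pow_ne_zero _ (X_sub_C_ne_zero q)
  have h3 := (mul_dvd_mul_iff_left hX).1 hW
  rw [dvd_iff_isRoot, IsRoot.def, eval_mul, eval_C, eval_prod] at h3
  refine mul_ne_zero h.w_ne (Finset.prod_ne_zero_iff.2 fun m hm => ?_) h3
  rw [eval_pow, eval_sub, eval_X, eval_C]
  exact pow_ne_zero _ (sub_ne_zero.2 (h.q_inj l m (Finset.ne_of_mem_erase hm).symm))

end T5

open T5

/-- mod:T5a. -/
theorem Good.isCoprime {x : Idx d n N → ℂ} (h : Good D x) : IsCoprime (polyA x) (polyB x) := by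
  rw [Polynomial.isCoprime_iff_aeval_ne_zero_of_isAlgClosed ℂ ℂ]
  intro z
  simpa using no_common_root h z

lemma T5.toSphere_ne {a b : ℂ} (hb : b ≠ 0) : toSphere a b = ((a / b : ℂ) : S2) := if_neg hb

lemma T5.toSphere_zero (a : ℂ) : toSphere a 0 = OnePoint.infty := if_pos rfl

lemma T5.toSphere_eq_coe_iff {a b z : ℂ} (hab : a ≠ 0 ∨ b ≠ 0) :
    toSphere a b = (z : S2) ↔ a - z * b = 0 := by
  by_cases hb : b = 0
  · subst hb
    rw [toSphere_zero]
    constructor
    · intro h
      exact absurd h (OnePoint.infty_ne_coe z)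
    · intro h
      rw [mul_zero, sub_zero] at h
      exact (hab.resolve_right (by simp) h).elim
  · rw [toSphere_ne hb, OnePoint.coe_eq_coe, div_eq_iff hb, sub_eq_zero]

lemma T5.toSphere_eq_infty_iff {a b : ℂ} : toSphere a b = OnePoint.infty ↔ b = 0 := by
  by_cases hb : b = 0
  · subst hb
    simp [toSphere_zero]
  · rw [toSphere_ne hb]
    simp [hb]

/-- The value of the map at a finite point, through `polyT`. -/
lemma Good.pMap_coe_eq_pt_iff {x : Idx d n N → ℂ} (h : Good D x) (z : ℂ) (i : Option (Fin n)) :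
    pMap x (z : S2) = pt x i ↔ (polyT x i).eval z = 0 := by
  change toSphere ((polyA x).eval z) ((polyB x).eval z) = pt x i ↔ _
  cases i with
  | none =>
    change _ = OnePoint.infty ↔ (polyB x).eval z = 0
    exact toSphere_eq_infty_iff
  | some i =>
    change _ = ((x (.p i) : ℂ) : S2) ↔ (polyA x - C (x (.p i)) * polyB x).eval z = 0
    rw [toSphere_eq_coe_iff (no_common_root h z), eval_sub, eval_mul, eval_C]

/-- mod:T5b. -/
theorem Good.pMap_qt {x : Idx d n N → ℂ} (h : Good D x) (l : Option (Fin N)) :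
    pMap x (qt x l) = pt x (l.elim D.k D.L) := by
  cases l with
  | none =>
    change toSphere ((polyA x).coeff d) ((polyB x).coeff d) = pt x D.k
    have h1 := h.infk
    have hl := h.lead
    rw [← coeff_polyA_d x, ← coeff_polyB_d x] at hl
    rcases hk : D.k with _ | i
    · rw [hk] at h1
      change (polyB x).coeff d = 0 at h1
      change _ = OnePoint.infty
      rw [toSphere_eq_infty_iff, h1]
    · rw [hk] at h1
      change (polyA x - C (x (.p i)) * polyB x).coeff d = 0 at h1
      change _ = ((x (.p i) : ℂ) : S2)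
      rw [toSphere_eq_coe_iff hl]
      rwa [coeff_sub, coeff_C_mul] at h1
  | some l =>
    change pMap x ((x (.q l) : ℂ) : S2) = pt x (D.L l)
    rw [h.pMap_coe_eq_pt_iff, isRoot_polyT_iff h]
    exact ⟨l, rfl, rfl⟩

/-- mod:T5c. -/
theorem Good.mem_range_qt {x : Idx d n N → ℂ} (h : Good D x) {z : S2}
    (hz : pMap x z ∈ marked x) : z ∈ range (qt x) := by
  induction z using OnePoint.rec with
  | infty => exact ⟨none, rfl⟩
  | coe z =>
    obtain ⟨i, hi⟩ := hz
    have h1 := (h.pMap_coe_eq_pt_iff z i).1 hi.symm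
    obtain ⟨l, -, hl⟩ := (isRoot_polyT_iff h i z).1 h1
    exact ⟨some l, by rw [hl]; rfl⟩

/-- mod:T5d. -/
theorem Good.fiber {x : Idx d n N → ℂ} (h : Good D x) {z : S2} (hz : z ∉ marked x) :
    (pMap x ⁻¹' {z}).Finite ∧ (pMap x ⁻¹' {z}).ncard = d := by
  induction z using OnePoint.rec with
  | infty => exact absurd ⟨none, rfl⟩ hz
  | coe ζ =>
    have hp : ∀ i, ζ ≠ x (.p i) := by
      rintro i rfl
      exact hz ⟨some i, rfl⟩
    set Q : ℂ[X] := polyA x - C ζ * polyB x with hQ
    have hfib : pMap x ⁻¹' {(ζ : S2)} = (fun w : ℂ => (w : S2)) '' {w | Q.IsRoot w} := by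
      ext w
      induction w using OnePoint.rec with
      | infty =>
        constructor
        · intro hw
          exfalso
          have h1 : pMap x OnePoint.infty = (ζ : S2) := hw
          have h2 := h.pMap_qt none
          change pMap x OnePoint.infty = pt x D.k at h2
          rw [h1] at h2
          exact hz ⟨_, h2.symm⟩
        · rintro ⟨w, -, hw⟩
          exact absurd hw (OnePoint.coe_ne_infty w)
      | coe w =>
        have h1 : pMap x (w : S2) = (ζ : S2) ↔ Q.IsRoot w := by
          change toSphere ((polyA x).eval w) ((polyB x).eval w) = _ ↔ _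
          rw [toSphere_eq_coe_iff (no_common_root h w), IsRoot.def, hQ, eval_sub, eval_mul, eval_C]
        constructor
        · intro hw
          exact ⟨w, h1.1 hw, rfl⟩
        · rintro ⟨w', hw', hww⟩
          rw [OnePoint.coe_eq_coe] at hww
          subst hww
          exact h1.2 hw'
    have hsep : Q.Separable := by
      rw [separable_def, Polynomial.isCoprime_iff_aeval_ne_zero_of_isAlgClosed ℂ ℂ]
      intro w
      by_contra hcon
      push Not at hcon
      simp only [coe_aeval_eq_eval] at hcon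
      obtain ⟨h1, h2⟩ := hcon
      have h3 : (derivative (polyA x) * polyB x - polyA x * derivative (polyB x)).eval w = 0 := by
        rw [hQ, eval_sub, eval_mul, eval_C] at h1
        rw [hQ, derivative_sub, derivative_C_mul, eval_sub, eval_mul, eval_C] at h2
        rw [eval_sub, eval_mul, eval_mul]
        linear_combination (polyB x).eval w * h2 - (derivative (polyB x)).eval w * h1
      have h4 : ∃ l, w = x (.q l) := by
        by_contra hne
        push Not at hne
        exact wron_ne h hne h3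
      obtain ⟨l, rfl⟩ := h4
      have h5 := h.pMap_qt (some l)
      change pMap x ((x (.q l) : ℂ) : S2) = pt x (D.L l) at h5
      have h6 : ((x (.q l) : ℂ) : S2) ∈ pMap x ⁻¹' {(ζ : S2)} := by
        rw [hfib]
        exact ⟨_, h1, rfl⟩
      have h7 : pMap x ((x (.q l) : ℂ) : S2) = (ζ : S2) := h6
      rw [h7] at h5
      exact hz ⟨_, h5.symm⟩
    have hdegle : Q.natDegree ≤ d := by
      rw [hQ]
      refine (natDegree_sub_le _ _).trans (max_le (natDegree_polyA_le x) ?_)
      exact (natDegree_C_mul_le _ _).trans (natDegree_polyB_le x)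
    have hcoef : Q.coeff d ≠ 0 := by
      rw [hQ, coeff_sub, coeff_C_mul]
      have h1 := h.infk
      have hl := h.lead
      rw [← coeff_polyA_d x, ← coeff_polyB_d x] at hl
      rcases hk : D.k with _ | i
      · rw [hk] at h1
        change (polyB x).coeff d = 0 at h1
        rw [h1, mul_zero, sub_zero]
        exact hl.resolve_right (by simp [h1])
      · rw [hk] at h1
        change (polyA x - C (x (.p i)) * polyB x).coeff d = 0 at h1
        rw [coeff_sub, coeff_C_mul, sub_eq_zero] at h1
        rw [h1, ← sub_mul]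
        refine mul_ne_zero (sub_ne_zero.2 (hp i).symm) ?_
        intro hB
        rw [hB, mul_zero] at h1
        rcases hl with hl | hl
        · exact hl h1
        · exact hl hB
    have hdeg : Q.natDegree = d := natDegree_eq_of_le_of_coeff_ne_zero hdegle hcoef
    have hinj : Function.Injective (fun w : ℂ => (w : S2)) := OnePoint.coe_injective
    constructor
    · rw [hfib]
      exact (PolyTools.finite_roots hsep.ne_zero).image _
    · rw [hfib, Set.ncard_image_of_injective _ hinj, PolyTools.ncard_roots hsep, hdeg]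

end Pool.Agent.helper65.GCA
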