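import Pool.Agent.helper66.GCA_PolyTools
import Pool.Agent.helper66.GCA_T2

set_option autoImplicit false

/-!
# Module A9 of MP_5e4b6b_an: following a root along a path
-/

namespace Pool.Agent.helper65.GCA

open Set Topology unitInterval Polynomial PolyTools

/-- mod:A9 (from T2). -/
theorem exists_root_path (q : I → ℂ[X]) (e : ℕ) (hdeg : ∀ t, (q t).natDegree = e)
    (hcont : ∀ k, Continuous fun t => (q t).coeff k) (hsep : ∀ t, (q t).Separable) (y₀ : ℂ)
    (h0 : (q 0).IsRoot y₀) :
    ∃ y : I → ℂ, Continuous y ∧ y 0 = y₀ ∧ ∀ t, (q t).IsRoot (y t) := by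
  have hn : ∀ t, (q t).natDegree < e + 1 := fun t => by rw [hdeg t]; exact Nat.lt_succ_self e
  have hev := continuous_eval q hcont (e + 1) hn
  let E : Set (I × ℂ) := {z | (q z.1).IsRoot z.2}
  obtain ⟨M, hM⟩ := exists_root_bound q e hdeg hcont fun t => (hsep t).ne_zero
  have hEcl : IsClosed E := isClosed_singleton.preimage hev
  have hEcomp : IsCompact E := by
    refine ((isCompact_univ (X := I)).prod (isCompact_closedBall (0 : ℂ) M)).of_isClosed_subset
      hEcl ?_
    rintro ⟨t, y⟩ hz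
    refine ⟨mem_univ _, ?_⟩
    rw [mem_closedBall_zero_iff]
    exact hM t y hz
  have : CompactSpace E := isCompact_iff_compactSpace.1 hEcomp
  let f : E → I := fun z => z.1.1
  have hf : Continuous f := continuous_fst.comp continuous_subtype_val
  have hfib : ∀ t, f ⁻¹' {t} = (fun z : E => z.1.2) ⁻¹' {y | (q t).IsRoot y} ∩ f ⁻¹' {t} := by
    intro t
    ext ⟨⟨s, y⟩, hz⟩
    constructor
    · intro h
      have h' : s = t := h
      subst h'
      exact ⟨hz, rfl⟩
    · exact fun h => h.2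
  -- the fibre over `t` is in bijection with the roots of `q t`
  have himg : ∀ t, f ⁻¹' {t} = (fun y : {y | (q t).IsRoot y} => (⟨(t, y.1), y.2⟩ : E)) '' univ := by
    intro t
    ext ⟨⟨s, y⟩, hz⟩
    constructor
    · intro h
      have h' : s = t := h
      subst h'
      exact ⟨⟨y, hz⟩, trivial, rfl⟩
    · rintro ⟨⟨y', hy'⟩, -, h⟩
      have h1 := congrArg (fun z : E => z.1.1) h
      exact h1.symm
  have hinjr : ∀ t, Function.Injective (fun y : {y | (q t).IsRoot y} => (⟨(t, y.1), y.2⟩ : E)) := by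
    intro t a b hab
    have h1 := congrArg (fun z : E => z.1.2) hab
    exact Subtype.ext h1
  have hcov : IsCoveringMapOn f univ := by
    refine isCoveringMapOn_of_card hf isOpen_univ e ?_ ?_ ?_
    · intro t _
      rw [himg t]
      have : Finite {y | (q t).IsRoot y} := (finite_roots (hsep t).ne_zero).to_subtype
      exact (Set.toFinite _).image _
    · intro t _
      rw [himg t, Set.ncard_image_of_injective _ (hinjr t), Set.ncard_univ,
        Nat.card_coe_set_eq, ncard_roots (hsep t), hdeg t]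
    · rintro ⟨⟨t, y⟩, hz⟩ -
      have hΔ := continuous_dq (fun s => (q s).coeff) hcont (e + 1)
      have hne : dq (q t).coeff (e + 1) y y ≠ 0 := by
        rw [dq_self (hn t)]
        intro h
        exact (hsep t).eval₂_derivative_ne_zero (RingHom.id ℂ) (x := y)
          (by rw [eval₂_id]; exact hz) (by rw [eval₂_id]; exact h)
      have hopen : IsOpen {z : I × ℂ × ℂ | dq (q z.1).coeff (e + 1) z.2.1 z.2.2 ≠ 0} :=
        isOpen_ne.preimage hΔ
      have hmem : {z : I × ℂ × ℂ | dq (q z.1).coeff (e + 1) z.2.1 z.2.2 ≠ 0} ∈ 𝓝 (t, y, y) :=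
        hopen.mem_nhds hne
      rw [nhds_prod_eq, nhds_prod_eq, Filter.mem_prod_iff] at hmem
      obtain ⟨A, hA, B, hB, hAB⟩ := hmem
      rw [Filter.mem_prod_self_iff] at hB
      obtain ⟨B', hB', hBB⟩ := hB
      refine ⟨(fun z : E => z.1) ⁻¹' (A ×ˢ B'), ?_, ?_⟩
      · exact continuous_subtype_val.continuousAt.preimage_mem_nhds (prod_mem_nhds hA hB')
      · rintro ⟨⟨s, u⟩, hu⟩ hsu ⟨⟨s', v⟩, hv⟩ hsv hss
        have hs : s = s' := hss
        subst hs
        have h1 : dq (q s).coeff (e + 1) u v ≠ 0 :=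
          hAB (show (s, u, v) ∈ A ×ˢ B from ⟨hsu.1, hBB ⟨hsu.2, hsv.2⟩⟩)
        have h2 := eval_sub_eval (hn s) u v
        have hu' : (q s).eval u = 0 := hu
        have hv' : (q s).eval v = 0 := hv
        rw [hu', hv', sub_zero, eq_comm, mul_eq_zero] at h2
        have h3 : u = v := sub_eq_zero.1 (h2.resolve_left h1)
        subst h3
        rfl
  have hcm : IsCoveringMap f := isCoveringMap_iff_isCoveringMapOn_univ.2 hcov
  obtain ⟨Γ, hΓ, hΓ0⟩ := hcm.exists_path_lifts (ContinuousMap.id I) ⟨(0, y₀), h0⟩ rfl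
  refine ⟨fun t => (Γ t).1.2, continuous_snd.comp (continuous_subtype_val.comp Γ.continuous),
    ?_, ?_⟩
  · simp only [hΓ0]
  · intro t
    have h1 : (Γ t).1.1 = t := congrFun hΓ t
    have h2 := (Γ t).2
    change (q (Γ t).1.1).IsRoot (Γ t).1.2 at h2
    rwa [h1] at h2

end Pool.Agent.helper65.GCA
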