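import Pool.Agent.helper65.GCA.Defs

set_option autoImplicit false

/-!
# Tools on families of polynomials for MP_5e4b6b_an
-/

namespace Pool.Agent.helper65.GCA.PolyTools

open Set Topology Polynomial

/-- The difference quotient of a polynomial. -/
noncomputable def dq (c : ℕ → ℂ) (n : ℕ) (u v : ℂ) : ℂ :=
  ∑ k ∈ Finset.range n, c k * ∑ j ∈ Finset.range k, u ^ j * v ^ (k - 1 - j)

lemma eval_sub_eval {p : ℂ[X]} {n : ℕ} (hn : p.natDegree < n) (u v : ℂ) :
    p.eval u - p.eval v = dq p.coeff n u v * (u - v) := by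
  rw [eval_eq_sum_range' hn, eval_eq_sum_range' hn, dq, ← Finset.sum_sub_distrib, Finset.sum_mul]
  refine Finset.sum_congr rfl fun k _ => ?_
  rw [mul_assoc, geom_sum₂_mul]
  ring

lemma dq_self {p : ℂ[X]} {n : ℕ} (hn : p.natDegree < n) (y : ℂ) :
    dq p.coeff n y y = (derivative p).eval y := by
  rw [derivative_eval, sum_over_range' _ _ n hn, dq]
  · refine Finset.sum_congr rfl fun k _ => ?_
    rw [(geom_sum₂_self y k)]
    ring
  · intro k
    simp

lemma continuous_dq {T : Type*} [TopologicalSpace T] (c : T → ℕ → ℂ)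
    (hc : ∀ k, Continuous fun t => c t k) (n : ℕ) :
    Continuous fun z : T × ℂ × ℂ => dq (c z.1) n z.2.1 z.2.2 := by
  unfold dq
  refine continuous_finsetSum _ fun k _ => ?_
  refine ((hc k).comp continuous_fst).mul (continuous_finsetSum _ fun j _ => ?_)
  fun_prop

lemma continuous_eval {T : Type*} [TopologicalSpace T] (q : T → ℂ[X])
    (hc : ∀ k, Continuous fun t => (q t).coeff k) (n : ℕ) (hn : ∀ t, (q t).natDegree < n) :
    Continuous fun z : T × ℂ => (q z.1).eval z.2 := by
  have h : (fun z : T × ℂ => (q z.1).eval z.2) =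
      fun z => ∑ k ∈ Finset.range n, (q z.1).coeff k * z.2 ^ k := by
    funext z
    exact eval_eq_sum_range' (hn z.1) z.2
  rw [h]
  refine continuous_finsetSum _ fun k _ => ?_
  exact ((hc k).comp continuous_fst).mul (continuous_snd.pow k)

/-- The roots of a continuous family of polynomials of constant degree over a compact space are
bounded. -/
lemma exists_root_bound {T : Type*} [TopologicalSpace T] [CompactSpace T] (q : T → ℂ[X]) (e : ℕ)
    (hdeg : ∀ t, (q t).natDegree = e) (hc : ∀ k, Continuous fun t => (q t).coeff k)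
    (hne : ∀ t, q t ≠ 0) : ∃ M : ℝ, ∀ t y, (q t).IsRoot y → ‖y‖ ≤ M := by
  have hcont : Continuous fun t => ((cauchyBound (q t) : NNReal) : ℝ) := by
    have h : (fun t => ((cauchyBound (q t) : NNReal) : ℝ)) = fun t =>
        (((Finset.range e).sup (fun k => ‖(q t).coeff k‖₊) / ‖(q t).coeff e‖₊ + 1 : NNReal) : ℝ) := by
      funext t
      simp only [cauchyBound, leadingCoeff, hdeg t]
    rw [h]
    refine NNReal.continuous_coe.comp ?_
    refine (Continuous.div ?_ ?_ ?_).add continuous_const
    · exact Continuous.finset_sup_apply fun k _ => (hc k).nnnorm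
    · exact (hc e).nnnorm
    · intro t
      rw [Ne, nnnorm_eq_zero]
      have h1 : (q t).leadingCoeff ≠ 0 := leadingCoeff_ne_zero.2 (hne t)
      rwa [leadingCoeff, hdeg t] at h1
  obtain ⟨M, hM⟩ := isCompact_univ.exists_bound_of_continuousOn hcont.continuousOn
  refine ⟨M, fun t y hy => ?_⟩
  have h1 := hM t (mem_univ t)
  have h2 : ‖y‖ < cauchyBound (q t) := by
    have h3 := Polynomial.IsRoot.norm_lt_cauchyBound (hne t) hy
    exact_mod_cast h3
  exact h2.le.trans ((Real.le_norm_self _).trans h1)

/-- A separable polynomial of degree `e` has exactly `e` roots. -/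
lemma ncard_roots {p : ℂ[X]} (hp : p.Separable) : {y | p.IsRoot y}.ncard = p.natDegree := by
  classical
  have h0 : p ≠ 0 := hp.ne_zero
  have h1 : {y | p.IsRoot y} = (p.roots.toFinset : Set ℂ) := by
    ext y
    simp [h0]
  rw [h1, Set.ncard_coe_finset, Multiset.toFinset_card_of_nodup (nodup_roots hp)]
  exact (IsAlgClosed.splits p).natDegree_eq_card_roots.symm

lemma finite_roots {p : ℂ[X]} (h0 : p ≠ 0) : {y | p.IsRoot y}.Finite := by
  classical
  have h1 : {y | p.IsRoot y} = (p.roots.toFinset : Set ℂ) := by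
    ext y
    simp [h0]
  rw [h1]
  exact Finset.finite_toSet _

end Pool.Agent.helper65.GCA.PolyTools
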